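import Pool.Agent.H34.CGS.Stmts

/-!
# Row EXP of the board `cgs`: linear combinations of EXW
-/

set_option autoImplicit false

noncomputable section

namespace Pool.CGS

open Pool.CGR

namespace EXPA

theorem pe_eq {α A : Type} [Ring A] [Algebra ℂ A] (x : α → A) (P : List α →₀ ℂ) :
    pe x P = Finsupp.linearCombination ℂ (ev x) P := rfl

theorem dp_eq {α A : Type} [DecidableEq α] [Ring A] [Algebra ℂ A] (τ : A →ₗ[ℂ] ℂ) (x : α → A)
    (i : α) (P : List α →₀ ℂ) :
    dp τ x i P = Finsupp.linearCombination ℂ (dq (fun w => τ (ev x w)) i) P := rfl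

theorem lc_comp {α A : Type} [AddCommGroup A] [Module ℂ A] {β : Type} (v : β → A)
    (g : α → (β →₀ ℂ)) (W : α →₀ ℂ) :
    Finsupp.linearCombination ℂ v (Finsupp.linearCombination ℂ g W) =
      Finsupp.linearCombination ℂ (fun w => Finsupp.linearCombination ℂ v (g w)) W := by
  induction W using Finsupp.induction_linear with
  | zero => simp
  | add f h hf hh => rw [map_add, map_add, map_add, hf, hh]
  | single a b => simp

end EXPA

theorem exp_thm (hEXW : EXWStmt) : EXPStmt := by
  intro m A _ τ hτ x S hS W
  choose g hg1 hg2 using hEXW m A τ hτ x S hS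
  refine ⟨Finsupp.linearCombination ℂ g W, ?_, ?_⟩
  · intro P
    have h1 : ∀ c : List (Fin m), τ (pe (Sum.elim x S) W * ev x c) =
        τ (pe x (Finsupp.linearCombination ℂ g W) * ev x c) := by
      intro c
      rw [EXPA.pe_eq, EXPA.pe_eq, EXPA.lc_comp]
      induction W using Finsupp.induction_linear with
      | zero => simp
      | add f h hf hh => rw [map_add, map_add, add_mul, add_mul, map_add, map_add, hf, hh]
      | single a b =>
        rw [Finsupp.linearCombination_single, Finsupp.linearCombination_single, smul_mul_assoc,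
          smul_mul_assoc, map_smul, map_smul, hg1 a c, EXPA.pe_eq]
    rw [EXPA.pe_eq x P]
    induction P using Finsupp.induction_linear with
    | zero => simp
    | add f h hf hh => rw [map_add, mul_add, mul_add, map_add, map_add, hf, hh]
    | single a b =>
      rw [Finsupp.linearCombination_single, mul_smul_comm, mul_smul_comm, map_smul, map_smul, h1 a]
  · intro i
    rw [EXPA.dp_eq, EXPA.dp_eq, EXPA.lc_comp]
    congr 2
    funext w
    exact hg2 w i

end Pool.CGS

end
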